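import Pool.Agent.Lib.MP_cff830_lc.SDP.Lev.FinalL
import Mathlib.LinearAlgebra.Matrix.PosDef

/-!
# The Sherali-Adams SDP hierarchy does not approximate vertex cover within `2 - ε`

For every `ε > 0` there are graphs on `n` vertices, all vertex covers of which have at least
`(1 - ε) n` vertices, for which the Sherali-Adams SDP relaxation of vertex cover of level
`c √(log n)` has a solution of value at most `(1 / 2 + ε) n`.
-/

set_option autoImplicit false

namespace Pool.Agent.Lib.MP_cff830_lc.Retired.SheraliAdamsSDP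

open Finset

/-- `U` is a vertex cover of `G`: every edge has an end in `U`. -/
def IsVertexCover {V : Type} (G : SimpleGraph V) (U : Finset V) : Prop :=
  ∀ x y, G.Adj x y → x ∈ U ∨ y ∈ U

/-- The matrix of the moments of order at most two. Rows and columns are indexed by the empty set
(`none`) and the vertices; the entry of two vertices `x` and `y` is the probability
`μ {x, y} {x, y}` that both are in the cover, the entry of `none` and `x` is `μ {x} {x}`, and the
entry of `none` and `none` is `μ ∅ ∅`, which is `1`. -/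
def momentMatrix {V : Type} [DecidableEq V] (μ : Finset V → Finset V → ℝ) :
    Matrix (Option V) (Option V) ℝ :=
  fun a b => μ (a.toFinset ∪ b.toFinset) (a.toFinset ∪ b.toFinset)

/-- Solutions of level `k` of the Sherali-Adams SDP relaxation of vertex cover. For a set `S` of at
most `k` vertices `μ S` is a probability distribution on the subsets of `S`, supported on the sets
`U` that cover every edge with both ends in `S`; for `S ⊆ T` the distribution `μ S` is the marginal
of `μ T`; the matrix of the moments of order at most two is positive semidefinite. -/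
structure IsSolution {V : Type} [Fintype V] [DecidableEq V] (G : SimpleGraph V) (k : ℕ)
    (μ : Finset V → Finset V → ℝ) : Prop where
  nonneg : ∀ S U, 0 ≤ μ S U
  total : ∀ S, S.card ≤ k → ∑ U ∈ S.powerset, μ S U = 1
  consistent : ∀ S T, S ⊆ T → T.card ≤ k → ∀ U, U ⊆ S →
    μ S U = ∑ W ∈ T.powerset with W ∩ S = U, μ T W
  cover : ∀ S, S.card ≤ k → ∀ U, U ⊆ S → μ S U ≠ 0 → ∀ x ∈ S, ∀ y ∈ S, G.Adj x y →
    x ∈ U ∨ y ∈ U
  psd : (momentMatrix μ).PosSemidef

/-- For every `ε > 0` there is `C` such that for every `k ≥ 2` there is a graph on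
`n ≤ 2 ^ (C * k ^ 2)` vertices, all vertex covers of which have at least `(1 - ε) * n` vertices,
while the Sherali-Adams SDP relaxation of level `k` has a solution of value at most
`(1 / 2 + ε) * n`. -/
theorem result : ∀ ε : ℝ, 0 < ε → ∃ C : ℕ, ∀ k : ℕ, 2 ≤ k →
    ∃ (V : Type) (_ : Fintype V) (_ : DecidableEq V) (G : SimpleGraph V),
      0 < Fintype.card V ∧ Fintype.card V ≤ 2 ^ (C * k ^ 2) ∧
      (∀ U : Finset V, IsVertexCover G U → (1 - ε) * (Fintype.card V : ℝ) ≤ (U.card : ℝ)) ∧
      ∃ μ : Finset V → Finset V → ℝ, IsSolution G k μ ∧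
        ∑ x, μ {x} {x} ≤ (1 / 2 + ε) * (Fintype.card V : ℝ) := by
  intro ε hε
  obtain ⟨C, hC⟩ := Pool.Agent.Lib.MP_cff830_lc.SDP.finalL ε hε
  refine ⟨C, fun k hk => ?_⟩
  obtain ⟨V, i₁, i₂, G, h₁, h₂, h₃, μ, h₄, h₅⟩ := hC k (by omega)
  refine ⟨V, i₁, i₂, G, h₁, h₂, h₃, μ, ⟨h₄.nonneg, h₄.total, h₄.consistent, h₄.cover, ?_⟩, h₅⟩
  have h0 : μ ∅ ∅ = 1 := by
    have := h₄.total ∅ (by simp)
    simpa using this
  refine Matrix.PosSemidef.of_dotProduct_mulVec_nonneg ?_ fun c => ?_
  · ext a b
    simp [momentMatrix, Finset.union_comm]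
  · have := h₄.psd (c none) fun x => c (some x)
    refine this.trans (le_of_eq ?_)
    simp only [dotProduct, Matrix.mulVec, momentMatrix, Fintype.sum_option, Option.toFinset_none,
      Option.toFinset_some, star_trivial, Finset.mul_sum, Finset.union_empty, Finset.empty_union,
      Pi.star_apply, h0, Finset.sum_add_distrib, mul_add]
    have e : ∀ x y : V, ({x} ∪ {y} : Finset V) = {x, y} := fun x y => rfl
    simp only [e]
    have e₁ : ∑ x, c none * (μ {x} {x} * c (some x)) = c none * ∑ x, c (some x) * μ {x} {x} := by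
      rw [Finset.mul_sum]
      exact Finset.sum_congr rfl fun x _ => by ring
    have e₂ : ∑ x, c (some x) * (μ {x} {x} * c none) = c none * ∑ x, c (some x) * μ {x} {x} := by
      rw [Finset.mul_sum]
      exact Finset.sum_congr rfl fun x _ => by ring
    have e₃ : ∑ x, ∑ y, c (some x) * (μ {x, y} {x, y} * c (some y)) =
        ∑ x, ∑ y, c (some x) * c (some y) * μ {x, y} {x, y} :=
      Finset.sum_congr rfl fun x _ => Finset.sum_congr rfl fun y _ => by ring
    rw [e₁, e₂, e₃, ← Finset.mul_sum]
    ring

end Pool.Agent.Lib.MP_cff830_lc.Retired.SheraliAdamsSDP
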